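import Pool.Agent.Helper62.NT.Goals

/-!
# Project NT, packet LOW: the lower 2-estimate
-/

set_option autoImplicit false

noncomputable section

namespace Pool.Agent.Helper15.NT.LOW

open Pool.Agent.Helper62.NT Filter Topology

theorem t (hV : S_VBAS) (hS : S_SMALL) (hSEP : S_SEP) : S_LOW := by
  intro ι F a w C ε ha hw hlim hε
  obtain ⟨v1, -, v3, v4, v5, -, -, -, -, -⟩ := hV
  obtain ⟨s1, s2, s3⟩ := hS
  have hVa : 0 ≤ V a := v1 a
  set D : ℝ := max C 0 with hD
  have hD0 : 0 ≤ D := le_max_right _ _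
  set S : ℝ := Real.sqrt D with hSdef
  have hS0 : 0 ≤ S := Real.sqrt_nonneg _
  have hSsq : S ^ 2 = D := Real.sq_sqrt hD0
  have hden : 0 < 4 * V a + 6 * S + 6 := by positivity
  set η : ℝ := min 1 (ε / (4 * V a + 6 * S + 6)) with hη
  have hη0 : 0 < η := lt_min one_pos (div_pos hε hden)
  have hη1 : η ≤ 1 := min_le_left _ _
  have hηε : η * (4 * V a + 6 * S + 6) ≤ ε := by
    have : η ≤ ε / (4 * V a + 6 * S + 6) := min_le_right _ _
    rwa [le_div_iff₀ hden] at this
  obtain ⟨K, hK⟩ := s3 a (η ^ 2) ha (by positivity)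
  obtain ⟨k1, k2, k3⟩ := hK K le_rfl
  have hKpos : (0 : ℝ) < 2 * ((K : ℝ) + 1) := by positivity
  set δ : ℝ := η / (2 * ((K : ℝ) + 1)) with hδ
  have hδ0 : 0 < δ := div_pos hη0 hKpos
  have hδη : δ * (2 * ((K : ℝ) + 1)) = η := div_mul_cancel₀ _ hKpos.ne'
  have hev : ∀ᶠ i in F, ∀ t ∈ Finset.range (K + 1), |w i t| ≤ δ := by
    rw [Filter.eventually_all_finset]
    intro t _
    have h0 : Tendsto (fun i => |w i t|) F (𝓝 0) := by
      have := (hlim t).abs
      rwa [abs_zero] at this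
    exact (h0.eventually (gt_mem_nhds hδ0)).mono fun i hi => hi.le
  filter_upwards [hev] with i hi
  have hwi : VB (w i) (S ^ 2) := fun n p hp => (hw i n p hp).trans (by rw [hSsq]; exact le_max_left _ _)
  have hVw : V (w i) ≤ S := v3 _ _ hS0 hwi
  -- the three pieces
  set T : ℕ → ℝ := fun t => a (max t K) - a K with hT
  set U : ℕ → ℝ := fun t => w i (min t K) with hU
  set E : ℕ → ℝ := fun t => w i (max t K) - w i K with hE
  set A : ℕ → ℝ := fun t => a (min t K) with hA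
  have hVT : V T ≤ η := v3 _ _ hη0.le k1
  have hUb : VB U (4 * K * δ ^ 2) := by
    refine s1 U K δ (fun t => ?_) (fun t ht => ?_)
    · exact hi _ (Finset.mem_range.2 (Nat.lt_succ_of_le (min_le_right _ _)))
    · simp only [hU, min_eq_right ht, min_self]
  have hKη : 4 * (K : ℝ) * δ ^ 2 ≤ η ^ 2 := by
    have hK0 : (0 : ℝ) ≤ K := Nat.cast_nonneg K
    rw [← hδη]
    nlinarith [sq_nonneg δ, mul_nonneg hK0 (sq_nonneg δ), mul_nonneg (mul_nonneg hK0 hK0) (sq_nonneg δ)]
  have hVU : V U ≤ η := v3 _ _ hη0.le fun n p hp => (hUb n p hp).trans hKη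
  have hEb : VB E (S ^ 2) := s2 (w i) K (S ^ 2) hwi
  have hVE : V E ≤ S := v3 _ _ hS0 hEb
  have bT : BV T := ⟨_, k1⟩
  have bU : BV U := ⟨_, hUb⟩
  have bE : BV E := ⟨_, hEb⟩
  have bw : BV (w i) := ⟨_, hwi⟩
  obtain ⟨baw, haw⟩ := v4 a (w i) ha bw
  obtain ⟨bTU, hTU⟩ := v4 T U bT bU
  obtain ⟨-, hAE⟩ := v5 _ _ baw bTU
  have e1 : (fun t => (a t + w i t) - (T t + U t)) = fun t => A t + E t := by
    funext t
    simp only [hT, hU, hA, hE]
    rcases le_total t K with h | h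
    · rw [max_eq_right h, min_eq_left h]
      ring
    · rw [max_eq_left h, min_eq_right h]
      ring
  rw [e1] at hAE
  obtain ⟨-, hEU⟩ := v4 E U bE bU
  have e2 : (fun t => E t + U t) = w i := by
    funext t
    simp only [hU, hE]
    rcases le_total t K with h | h
    · rw [max_eq_right h, min_eq_left h]
      ring
    · rw [max_eq_left h, min_eq_right h]
      ring
  rw [e2] at hEU
  have hsep := (hSEP A E K (fun t ht => by simp only [hA, min_eq_right ht, min_self])
    (fun t ht => by simp only [hE, max_eq_right ht, sub_self]) bE).1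
  have p1 : 0 ≤ V (fun t => a t + w i t) := v1 _
  have p2 : 0 ≤ V (fun t => A t + E t) := v1 _
  have p3 : 0 ≤ V E := v1 _
  have p4 : 0 ≤ V (w i) := v1 _
  have q1 : V (fun t => A t + E t) ≤ V (fun t => a t + w i t) + 2 * η := by linarith
  have q2 : V (w i) ≤ V E + η := by linarith
  have q3 : V (fun t => a t + w i t) ≤ V a + S := by linarith
  have r1 : V (fun t => A t + E t) ^ 2 ≤ (V (fun t => a t + w i t) + 2 * η) ^ 2 :=
    pow_le_pow_left₀ p2 q1 2
  have r2 : V (w i) ^ 2 ≤ (V E + η) ^ 2 := pow_le_pow_left₀ p4 q2 2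
  have r3 : η * V (fun t => a t + w i t) ≤ η * (V a + S) := mul_le_mul_of_nonneg_left q3 hη0.le
  have r4 : η * V E ≤ η * S := mul_le_mul_of_nonneg_left hVE hη0.le
  have r5 : η ^ 2 ≤ η := by nlinarith
  nlinarith

end Pool.Agent.Helper15.NT.LOW
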